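import Pool.Agent.Lib.MP_a283c1_gt.Proof

/-!
# Virtual string links up to self-virtualization: not all are monotone

For every `n ≥ 4` there is an `n`-component virtual string link which is not equivalent, up to
the generalized Reidemeister moves and self-virtualization, to any monotone diagram (virtual pure
braid diagram). In other words, the natural map `vP_n^{sv} → vSL_n^{sv}` is not surjective for
`n ≥ 4`. The definitions are in `Pool.Agent.Lib.MP_a283c1_gt.Defs`.
-/

namespace Pool.Agent.Results.MP_a283c1_gt.NotSurjective

open Pool.Agent.Lib.MP_a283c1_gt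

/-- **Main theorem.** The map `vP_n^{sv} → vSL_n^{sv}` is not surjective for every `n ≥ 4`. -/
theorem result : ∀ n : ℕ, 4 ≤ n →
    ∃ D : GaussDiagram n, ∀ D' : GaussDiagram n, D'.IsMonotone → ¬ SVEquiv D D' :=
  main

end Pool.Agent.Results.MP_a283c1_gt.NotSurjective
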